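import Mathlib
import Pool.Agent.SQF.Main

/-!
No extremal square-free words over an alphabet with at least five letters.
-/

set_option autoImplicit false

namespace Pool.Agent.Results.MP_166a38_co.LargeAlphabets

/-- Over a finite alphabet with at least five letters every square-free finite word admits a position and a letter whose
insertion there keeps the word square-free: there are no extremal square-free words. -/
theorem result (A : Type) [Fintype A] (hA : 5 ≤ Fintype.card A) (w : List A)
    (hw : ∀ x u y : List A, u ≠ [] → w ≠ x ++ u ++ u ++ y) :
    ∃ p s : List A, ∃ a : A, w = p ++ s ∧ ∀ x u y : List A, u ≠ [] → p ++ a :: s ≠ x ++ u ++ u ++ y :=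
  Pool.Agent.SQF.main A hA w hw

end Pool.Agent.Results.MP_166a38_co.LargeAlphabets
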